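import Pool.Agent.W811.LW.Stm2

set_option autoImplicit false

namespace Pool.Agent.W617.LW

open Filter Topology
open Pool.Agent.W811.LW

theorem lastb (h : FINB) (hl : LSEQB) : LASTB := by
  intro ψ hψ
  obtain ⟨L, κ, hL1, hκm, hκ1, hcnt, hrat, hlogκ, hψκ⟩ := hl ψ hψ
  obtain ⟨ξ, ζ, D, c, hD, hc, H⟩ := h L κ hL1 hκm hκ1 hcnt
  have hD0 : 0 < D := by linarith
  have hκ0 : ∀ n, 0 < κ n := fun n => lt_of_lt_of_le one_pos (hκ1 n)
  have hs : 0 < Real.log D := Real.log_pos hD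
  have hQ0 : ∀ k, 0 < c / κ (L k) ^ 2 * D ^ (L k) := fun k =>
    mul_pos (div_pos hc (pow_pos (hκ0 _) 2)) (pow_pos hD0 _)
  have hℓ : Tendsto (fun k => ((L k : ℕ) : ℝ)) atTop atTop :=
    tendsto_natCast_atTop_atTop.comp hL1.tendsto_atTop
  have hlog : ∀ k, Real.log (c / κ (L k) ^ 2 * D ^ (L k)) =
      Real.log c - 2 * Real.log (κ (L k)) + L k * Real.log D := by
    intro k
    rw [Real.log_mul (div_pos hc (pow_pos (hκ0 _) 2)).ne' (pow_pos hD0 _).ne', Real.log_pow,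
      Real.log_div hc.ne' (pow_pos (hκ0 _) 2).ne', Real.log_pow]
    push_cast
    ring
  have ha : Tendsto (fun k => Real.log c / ((L k : ℕ) : ℝ) -
      2 * (Real.log (κ (L k)) / ((L k : ℕ) : ℝ)) + Real.log D) atTop (𝓝 (Real.log D)) := by
    have h1 : Tendsto (fun k => Real.log c / ((L k : ℕ) : ℝ)) atTop (𝓝 0) :=
      tendsto_const_nhds.div_atTop hℓ
    have h2 := (h1.sub (hlogκ.const_mul 2)).add_const (Real.log D)
    simpa using h2
  have hlogQ : ∀ᶠ k in atTop, ((L k : ℕ) : ℝ) * (Real.log c / ((L k : ℕ) : ℝ) -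
      2 * (Real.log (κ (L k)) / ((L k : ℕ) : ℝ)) + Real.log D) =
      Real.log (c / κ (L k) ^ 2 * D ^ (L k)) := by
    filter_upwards [hℓ.eventually_gt_atTop 0] with k hk
    rw [hlog]
    field_simp
  have hlogQ' : Tendsto (fun k => Real.log (c / κ (L k) ^ 2 * D ^ (L k))) atTop atTop :=
    (hℓ.atTop_mul_pos hs ha).congr' hlogQ
  have hQT : Tendsto (fun k => c / κ (L k) ^ 2 * D ^ (L k)) atTop atTop := by
    refine (Real.tendsto_exp_atTop.comp hlogQ').congr ?_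
    intro k
    exact Real.exp_log (hQ0 k)
  refine ⟨ξ, ζ, fun k => c / κ (L k) ^ 2 * D ^ (L k), hQT, ?_, ?_⟩
  · have h1 : Tendsto (fun k => ((L (k + 1) : ℕ) : ℝ) / (L k : ℝ) *
        ((Real.log c / ((L (k + 1) : ℕ) : ℝ) -
          2 * (Real.log (κ (L (k + 1))) / ((L (k + 1) : ℕ) : ℝ)) + Real.log D) /
        (Real.log c / ((L k : ℕ) : ℝ) -
          2 * (Real.log (κ (L k)) / ((L k : ℕ) : ℝ)) + Real.log D))) atTop
        (𝓝 (1 * (Real.log D / Real.log D))) :=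
      hrat.mul ((ha.comp (tendsto_add_atTop_nat 1)).div ha hs.ne')
    rw [div_self hs.ne', mul_one] at h1
    refine h1.congr' ?_
    filter_upwards [hlogQ, (tendsto_add_atTop_nat 1).eventually hlogQ] with k e1 e2
    rw [← e1, ← e2, mul_div_mul_comm]
  · filter_upwards [hQT.eventually_ge_atTop 1, hψκ (1 / c ^ 2) 0] with k hk1 hk2
    have hκk := hκ0 (L k)
    have hne : Nonempty {q : ℕ // 0 < q ∧ (q : ℝ) ≤ c / κ (L k) ^ 2 * D ^ (L k)} :=
      ⟨⟨1, one_pos, by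
        push_cast
        exact hk1⟩⟩
    have key : (c / κ (L k) ^ 2) ^ 2 / (c / κ (L k) ^ 2 * D ^ (L k)) ≤
        ⨅ q : {q : ℕ // 0 < q ∧ (q : ℝ) ≤ c / κ (L k) ^ 2 * D ^ (L k)},
        |((q.1 : ℝ) * ξ) - (round ((q.1 : ℝ) * ξ) : ℝ)| *
        |((q.1 : ℝ) * ζ) - (round ((q.1 : ℝ) * ζ) : ℝ)| := by
      apply le_ciInf
      rintro ⟨q, hq1, hq2⟩
      rw [div_le_iff₀ (hQ0 k)]
      have h1 := H k (q : ℤ) (round ((q : ℝ) * ξ)) (round ((q : ℝ) * ζ))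
        (by exact_mod_cast hq1) (by rw [Int.cast_natCast]; exact hq2)
        (by
          rw [Int.cast_natCast]
          exact (abs_sub_round _).trans (by norm_num))
      rw [Int.cast_natCast] at h1
      have h2 := mul_le_mul_of_nonneg_right h1 (div_pos hc (pow_pos hκk 2)).le
      calc (c / κ (L k) ^ 2) ^ 2 = c / κ (L k) ^ 2 * (c / κ (L k) ^ 2) := by ring
        _ ≤ _ := h2
        _ = _ := by
          simp only
          ring
    have h3 : (c / κ (L k) ^ 2) ^ 2 ≤ c / κ (L k) ^ 2 * D ^ (L k) *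
        ⨅ q : {q : ℕ // 0 < q ∧ (q : ℝ) ≤ c / κ (L k) ^ 2 * D ^ (L k)},
        |((q.1 : ℝ) * ξ) - (round ((q.1 : ℝ) * ξ) : ℝ)| *
        |((q.1 : ℝ) * ζ) - (round ((q.1 : ℝ) * ζ) : ℝ)| := by
      calc (c / κ (L k) ^ 2) ^ 2 = c / κ (L k) ^ 2 * D ^ (L k) *
            ((c / κ (L k) ^ 2) ^ 2 / (c / κ (L k) ^ 2 * D ^ (L k))) := by
            rw [mul_div_cancel₀ _ (hQ0 k).ne']
        _ ≤ _ := mul_le_mul_of_nonneg_left key (hQ0 k).le
    refine le_trans ?_ h3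
    rw [add_zero] at hk2
    have h4 : 0 < 1 / c ^ 2 * κ (L k) ^ 4 := by positivity
    calc 1 / ψ k ≤ 1 / (1 / c ^ 2 * κ (L k) ^ 4) := one_div_le_one_div_of_le h4 hk2
      _ = (c / κ (L k) ^ 2) ^ 2 := by
        field_simp

end Pool.Agent.W617.LW
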